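import Mathlib
import Pool.Agent.U896.MF.FinalMF

/-!
# Filling spheres in the space of cohomologous symplectic forms by measurable forms

Let `S_a` be the space of symplectic forms in the class `a` of `σ₀` on the closed manifold `X` (for
instance the complex projective plane), `P` a compact Hausdorff space and `Q` a closed subset which
is a neighbourhood retract, for instance a ball and its boundary sphere. Let `η_q`, `q ∈ Q`, be a
continuous family in `S_a`, and let `J_p`, `p ∈ P`, be a continuous family of almost complex
structures such that `η_q` tames `J_q` for `q ∈ Q`. Suppose that every `J_p`, `p ∉ Q`, is weakly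
tamed by some measurable form `σ_p = σ₀ + dβ_p` in the class `a` (in the sense of distributions),
where `σ_p` and `β_p` are locally integrable; they need not depend on `p` in a continuous or
measurable way and they have no regularity in `x`; either the eccentricity of `σ_p` is bounded where
it is large, or `J_p` is Hölder continuous and `σ_p` has Morrey growth, and `σ_p` may fail to be
uniformly taming on sets with small components. Then `η` extends to a continuous family
`P → S_a`, whose forms tame `J_p`. In particular a sphere in `S_a` with such a filling is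
null-homotopic in `S_a`.
-/

set_option autoImplicit false

open Set MeasureTheory
open scoped Manifold ContDiff

namespace Pool.Agent.Results.MP_2fc7fa_gt.MeasurableFillings

open Pool.Agent.Y501.SYP Pool.Agent.U896.MFP

theorem result (d : ℕ) (hd : 0 < d) (X : Type) [TopologicalSpace X] [ChartedSpace (ES d) X]
    [IsManifold 𝓘(ℝ, ES d) ∞ X] [CompactSpace X] [T2Space X]
    (P : Type) [TopologicalSpace P] [CompactSpace P] [T2Space P] (Q N : Set P) (hQ : IsClosed Q)
    (hN : IsOpen N) (hQN : Q ⊆ N) (r : P → P) (hr : ContinuousOn r N) (hrQ : ∀ p ∈ N, r p ∈ Q)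
    (hrid : ∀ q ∈ Q, r q = q) (J : P → End (ES d) X) (hJ : ContinuousACS J)
    (σ₀ : Form (ES d) X 2) (hσ₀ : IsSmooth σ₀) (hσ₀c : IsClosedForm σ₀)
    (η : P → Form (ES d) X 2) (hη : FamilyInClass σ₀ Q η)
    (hηt : ∀ q ∈ Q, ∀ x, TamesAt (η q) (J q) x) (hw : ∀ p, p ∉ Q → WeaklyTamedIn σ₀ (J p)) :
    ∃ Ω : P → Form (ES d) X 2, FamilyInClass σ₀ univ Ω ∧ (∀ p x, TamesAt (Ω p) (J p) x) ∧
      (∀ p, NondegForm (Ω p)) ∧ ∀ q ∈ Q, Ω q = η q :=
  familiesMF hd Q N hQ hN hQN r hr hrQ hrid J hJ σ₀ hσ₀ hσ₀c η hη hηt hw

end Pool.Agent.Results.MP_2fc7fa_gt.MeasurableFillings
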