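import Mathlib
import Pool.Agent.U896.VF.FinalF

/-!
# Filling spheres of cohomologous symplectic forms by nearly nondegenerate forms

Let `S_a` be the space of symplectic forms in the class `a` of `σ₀` on the closed manifold `X` (for
instance the complex projective plane), `P` a compact Hausdorff space and `Q` a closed subset which
is a neighbourhood retract, for instance a ball and its boundary sphere, and let `η_q`, `q ∈ Q`, be
a continuous family in `S_a`. For every `p ∈ P` let `σ_p = σ₀ + dβ_p` be a measurable form in the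
class `a` (in the sense of distributions), where `σ_p` and `β_p` are locally integrable and the
integral of `|σ_p|` over balls of radius `t` is `O(t ^ (d - a_p))` with `a_p < 1` (for instance
`σ_p` is bounded). No almost complex structures are involved. Suppose that every point of `P` has a
neighbourhood `G` such that, for every finite set `F ⊆ G`, the forms `σ_p`, `p ∈ F`, and `η_q`,
`q ∈ Q ∩ G`, are nearly nondegenerate together: on small balls in `X` the forms `σ_p`, `p ∈ F`, are
close in the mean (in `L¹`) to a common convex set `C` of uniformly nondegenerate constant forms,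
which contains the values of the forms `η_q`, `q ∈ Q ∩ G`, at the centre; the set `C` may depend on
the ball in any way, so that nothing is assumed about the continuity of `σ_p` in `x`, and there is
no measurability in `p`. Then `η` extends to a continuous family `P → S_a`. In particular a sphere
in `S_a` with such a filling is null-homotopic in `S_a`; and the hypothesis holds if `p ↦ σ_p` is
continuous in the norm of `L^∞`, every `σ_p` is nearly nondegenerate, and `σ_q = η_q` for `q ∈ Q`.
-/

set_option autoImplicit false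

open Set MeasureTheory
open scoped Manifold ContDiff

namespace Pool.Agent.Results.MP_2fc7fa_gt.NearlyNondegenerateFillings

open Pool.Agent.Y501.SYP Pool.Agent.U896.SWP Pool.Agent.U896.SVP Pool.Agent.U896.SCP
  Pool.Agent.U896.MFP Pool.Agent.U896.VFP

theorem result (d : ℕ) (hd : 0 < d) (X : Type) [TopologicalSpace X] [ChartedSpace (ES d) X]
    [IsManifold 𝓘(ℝ, ES d) ∞ X] [CompactSpace X] [T2Space X]
    (P : Type) [TopologicalSpace P] [CompactSpace P] [T2Space P] (Q N : Set P) (hQ : IsClosed Q)
    (hN : IsOpen N) (hQN : Q ⊆ N) (r : P → P) (hr : ContinuousOn r N) (hrQ : ∀ p ∈ N, r p ∈ Q)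
    (hrid : ∀ q ∈ Q, r q = q)
    (σ₀ : Form (ES d) X 2) (hσ₀ : IsSmooth σ₀) (hσ₀c : IsClosedForm σ₀)
    (η : P → Form (ES d) X 2) (hη : FamilyInClass σ₀ Q η)
    (β : P → Form (ES d) X 1) (σ : P → Form (ES d) X 2)
    (hβ : ∀ p, LocInt1 (β p)) (hσ : ∀ p, LocInt (σ p)) (hw : ∀ p, WeaklyPlusD (σ p) σ₀ (β p))
    (hM : ∀ p, ∃ a : ℝ, a < 1 ∧ MorreyGrowth a (σ p))
    (hn : ∀ p₀, ∃ G : Set P, IsOpen G ∧ p₀ ∈ G ∧ ∀ F : Set P, F.Finite → F ⊆ G → ∀ x,
      NearlyTogether (η '' (Q ∩ G)) (σ '' F) x) :
    ∃ Ω : P → Form (ES d) X 2, FamilyInClass σ₀ univ Ω ∧ (∀ p, NondegForm (Ω p)) ∧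
      ∀ q ∈ Q, Ω q = η q :=
  familiesF hd Q N hQ hN hQN r hr hrQ hrid σ₀ hσ₀ hσ₀c η hη β σ hβ hσ hw hM hn

end Pool.Agent.Results.MP_2fc7fa_gt.NearlyNondegenerateFillings
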