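import Mathlib
import Pool.Agent.U896.NF.FinalNF

/-!
# A necessary and sufficient condition for spheres of cohomologous symplectic forms to bound

Let `S_a` be the space of symplectic forms in the class `a` of `σ₀` on the closed manifold `X` (for
instance the complex projective plane), `P` a compact Hausdorff space and `Q` a closed subset which
is a neighbourhood retract, for instance a ball and its boundary sphere, and let `η_q`, `q ∈ Q`, be
a continuous family of closed forms in the class `a`. Then `η` extends to a continuous family
`P → S_a` if and only if there is a continuous family `J_p`, `p ∈ P`, of almost complex structures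
such that `η_q` tames `J_q` for `q ∈ Q`, and every `J_p`, `p ∉ Q`, is nearly tamed in the class `a`:
there is a measurable form `σ_p = σ₀ + dβ_p` in the class `a` (in the sense of distributions), with
`σ_p` and `β_p` locally integrable and the integral of `|σ_p|` over balls of radius `t` at most
`C t ^ (d - a_p)`, `a_p < 1`, such that on small balls `B(y, t)` the form `σ_p` is close in the mean
to the set of the constant forms which tame `J_p(y)`, with a uniform bound.

The forms `σ_p` need not depend on `p` in a continuous or measurable way, they have no regularity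
in `x`, and they may be negative on `J_p`-complex lines on sets of positive measure near every
point; the `J_p` are continuous only.
-/

set_option autoImplicit false

open Set MeasureTheory
open scoped Manifold ContDiff

namespace Pool.Agent.Results.MP_2fc7fa_gt.NearlyTamingFillings

open Pool.Agent.Y501.SYP Pool.Agent.U896.MFP Pool.Agent.U896.NFP

theorem result (d : ℕ) (hd : 0 < d) (X : Type) [TopologicalSpace X] [ChartedSpace (ES d) X]
    [IsManifold 𝓘(ℝ, ES d) ∞ X] [CompactSpace X] [T2Space X]
    (P : Type) [TopologicalSpace P] [CompactSpace P] [T2Space P] (Q N : Set P) (hQ : IsClosed Q)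
    (hN : IsOpen N) (hQN : Q ⊆ N) (r : P → P) (hr : ContinuousOn r N) (hrQ : ∀ p ∈ N, r p ∈ Q)
    (hrid : ∀ q ∈ Q, r q = q)
    (σ₀ : Form (ES d) X 2) (hσ₀ : IsSmooth σ₀) (hσ₀c : IsClosedForm σ₀)
    (η : P → Form (ES d) X 2) (hη : FamilyInClass σ₀ Q η) :
    (∃ Ω : P → Form (ES d) X 2, FamilyInClass σ₀ univ Ω ∧ (∀ p, NondegForm (Ω p)) ∧
      ∀ q ∈ Q, Ω q = η q) ↔
    (∃ J : P → End (ES d) X, ContinuousACS J ∧ (∀ q ∈ Q, ∀ x, TamesAt (η q) (J q) x) ∧
      ∀ p, p ∉ Q → NearlyTamedIn σ₀ (J p)) :=
  fillingsNF hd Q N hQ hN hQN r hr hrQ hrid σ₀ hσ₀ hσ₀c η hη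

end Pool.Agent.Results.MP_2fc7fa_gt.NearlyTamingFillings
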