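import Mathlib
import Pool.Agent.U896.EQ.FinalEQ

/-!
# Cohomologous symplectic forms and weakly tamed almost complex structures

Let `S_a` be the space of symplectic forms in the class `a` of `σ₀` on the closed manifold `X` (for
instance the complex projective plane), and let `A_a` be the space of almost complex structures `J`
(continuous, with the `C⁰` topology) which are weakly tamed by some measurable form
`σ = σ₀ + dβ` in the class `a` (in the sense of distributions), where `σ` and `β` are locally
integrable, `σ(v, Jv) ≥ 0` almost everywhere, the set of points near which `σ` is not uniformly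
taming has small components, and either the eccentricity of `σ` is bounded where it is large, or `J`
is Hölder continuous and `σ` has Morrey growth.

Let `P` be a compact Hausdorff space and `Q` a closed subset which is a neighbourhood retract, for
instance a ball and its boundary sphere. Then all continuous families in `S_a` over `Q` extend to
`P` if and only if all continuous families in `A_a` over `Q` extend to `P`. For balls of all
dimensions: `S_a` is weakly contractible if and only if `A_a` is.

Proof: by the regularization of measurable taming forms and a partition of unity on `P`, families in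
`A_a` are tamed by families in `S_a`, also relative to `Q`. Conversely, a family of almost complex
structures over `Q` tamed by a family of nondegenerate forms over `P` extends to a tamed family over
`P`: it is joined to a family of compatible structures by polar decompositions of the forms between
`ω_p` and its `J_p`-invariant part (all of them are tamed by `ω_p`).
-/

set_option autoImplicit false

open Set MeasureTheory
open scoped Manifold ContDiff

namespace Pool.Agent.Results.MP_2fc7fa_gt.WeaklyTamedStructures

open Pool.Agent.Y501.SYP Pool.Agent.U896.MFP Pool.Agent.U896.EQP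

theorem result (d : ℕ) (hd : 0 < d) (X : Type) [TopologicalSpace X] [ChartedSpace (ES d) X]
    [IsManifold 𝓘(ℝ, ES d) ∞ X] [CompactSpace X] [T2Space X]
    (P : Type) [TopologicalSpace P] [CompactSpace P] [T2Space P] (Q N : Set P) (hQ : IsClosed Q)
    (hN : IsOpen N) (hQN : Q ⊆ N) (r : P → P) (hr : ContinuousOn r N) (hrQ : ∀ p ∈ N, r p ∈ Q)
    (hrid : ∀ q ∈ Q, r q = q)
    (σ₀ : Form (ES d) X 2) (hσ₀ : IsSmooth σ₀) (hσ₀c : IsClosedForm σ₀) :
    (∀ η : P → Form (ES d) X 2, FamilyInClass σ₀ Q η → (∀ q ∈ Q, NondegForm (η q)) →
      ∃ Ω : P → Form (ES d) X 2, FamilyInClass σ₀ univ Ω ∧ (∀ p, NondegForm (Ω p)) ∧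
        ∀ q ∈ Q, Ω q = η q) ↔
    (∀ J : P → End (ES d) X, ContinuousACSOn Q J → (∀ q ∈ Q, WeaklyTamedIn σ₀ (J q)) →
      ∃ J' : P → End (ES d) X, ContinuousACSOn univ J' ∧ (∀ p, WeaklyTamedIn σ₀ (J' p)) ∧
        ∀ q ∈ Q, J' q = J q) :=
  equivalence hd Q N hQ hN hQN r hr hrQ hrid σ₀ hσ₀ hσ₀c

end Pool.Agent.Results.MP_2fc7fa_gt.WeaklyTamedStructures
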